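import Pool.Agent.H635.LM.Main

/-!
# Laver measurability of `Δ¹₁` sets gives dominating functions over `L[r]`

The proof. Suppose that no function dominates `κ^κ ∩ L[r]`. For `x ∈ κ^κ` let `θ(x) < κ⁺` be the
least `θ` such that the level `L_θ[r]` contains a function that `x` does not dominate, and let
`e(x)` be the least injection of `θ(x)` into `κ` in the canonical well-ordering of `L[r]`. The sets
`B β i = {x | β < θ(x), e(x)(β) = i}` form an Ulam matrix, they are `Δ¹₁` since `x ↦ (θ(x), e(x))`
is `Σ₁` over the sets of hereditary size at most `κ`, and the complement of `⋃ i, B β i` is null.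
Two Laver trees with the same stem are compatible and the Baire category theorem holds for the
ideal of meager sets, which gives a contradiction if all the sets `B β i` are measurable.
-/

set_option autoImplicit false

namespace Pool.Agent.Results.MP_aa79b0_lc.LaverDominating

open Cardinal
open Pool.Agent.H635.LM

/-- Let `κ` be an uncountable regular cardinal with `κ ^< κ = κ`. If every `Δ¹₁` subset of `κ^κ`
is measurable with respect to `κ`-Laver trees, then for every `r ∈ κ^κ` there is `x ∈ κ^κ` that
eventually dominates all functions from `κ` to `κ` in `L[r]`. -/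
theorem result (κ : Cardinal.{0}) (hκ : ℵ₀ < κ) (hreg : κ.IsRegular) (hpow : κ ^< κ = κ)
    (hΔ : ∀ A : Set (κ.ord.ToType → κ.ord.ToType), IsDelta A → Meas A)
    (r : κ.ord.ToType → κ.ord.ToType) :
    ∃ x : κ.ord.ToType → κ.ord.ToType, ∀ y : κ.ord.ToType → κ.ord.ToType,
      gph y ∈ Lr (gph r) → ∃ a, ∀ b, a ≤ b → y b < x b := by
  have hc : #κ.ord.ToType = κ := mk_ord_toType κ
  have hK : Good κ.ord.ToType := by
    refine ⟨?_, fun a => ?_, ?_, ?_⟩
    · rwa [hc]
    · exact mk_Iio_lt a (by simp)
    · rwa [hc]
    · rwa [hc]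
  have hmax : NoMaxOrder κ.ord.ToType := ⟨fun a => by
    obtain ⟨b, hb⟩ := hK.bdd (ι := Unit) (by
      rw [mk_fintype, Fintype.card_unit, Nat.cast_one]
      exact one_lt_aleph0.trans hK.unc) fun _ => a
    exact ⟨b, hb ()⟩⟩
  exact main hK r hΔ

end Pool.Agent.Results.MP_aa79b0_lc.LaverDominating
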